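import Pool.Agent.H95.Pan.Ports

/-!
# Graphs with a port order, in particular graphs of pathwidth at most 3, are pandichotomous in the
plane

A port order is a construction of a graph vertex by vertex, in which vertex `i` is joined to some
vertices of a set `A i` of at most three earlier vertices, and offers two sets of at most three
vertices, `A i` and some `B i ⊆ A i ∪ {i}`, to the later vertices.

Idea: keep each port in a triangle whose sides are near `1`.  For a triangle `a b c` with sides
near `1` and any labels of the edges from a new vertex `x`, where `B = {x, b, c}`, put `x` at a
distance near `1` (a bit smaller or larger according to the labels) from `b` and `c`, on the same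
side of the line `b c` as `a` or on the other side, according to the label of `x a`.
-/

namespace Pool.Agent.Results.MP_e6972d_co.PortOrders

open Pool.Agent.H95.Pan

theorem result :
    (∀ (V : Type) [Fintype V] (G : SimpleGraph V), HasPortOrder G → Pandichotomous G) ∧
    (∀ (V : Type) [Fintype V] (G : SimpleGraph V), PathwidthLE G 3 → HasPortOrder G) :=
  ⟨fun _ _ G h => pandichotomous_of_hasPortOrder G h, fun _ _ G h => hasPortOrder_of_pathwidth G h⟩

end Pool.Agent.Results.MP_e6972d_co.PortOrders
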